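import Pool.Agent.HIK.Stmts

/-! HIK, module BXL: lower bound for the number of integers of bounded house. -/

set_option autoImplicit false

namespace Pool.Agent.HIK.H27

open NumberField Module

theorem bxl : BxlStmt := by
  intro K _ _
  classical
  have hcard : Fintype.card (Free.ChooseBasisIndex ℤ (𝓞 K)) = finrank ℚ K := by
    rw [← RingOfIntegers.rank K, finrank_eq_card_chooseBasisIndex]
  obtain ⟨M, hM⟩ := exists_nat_ge
    (∑ i, house ((RingOfIntegers.basis K i : 𝓞 K) : K) + 1)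
  have hs0 : 0 ≤ ∑ i, house ((RingOfIntegers.basis K i : 𝓞 K) : K) :=
    Finset.sum_nonneg (fun i _ => house_nonneg _)
  have hM1 : (1 : ℝ) ≤ M := by linarith
  have hMpos : (0 : ℝ) < M := by linarith
  have hMn : 0 < M := by exact_mod_cast hMpos
  refine ⟨(1 / (M : ℝ)) ^ finrank ℚ K, by positivity, ?_⟩
  intro X hX
  -- finiteness
  have hfin : Finite {a : 𝓞 K // house (a : K) ≤ X} := by
    have h1 : {x : K | IsIntegral ℤ x ∧ ∀ φ : K →+* ℂ, ‖φ x‖ ≤ (X : ℝ)}.Finite :=
      Embeddings.finite_of_norm_le K ℂ X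
    have : Finite {x : K | IsIntegral ℤ x ∧ ∀ φ : K →+* ℂ, ‖φ x‖ ≤ (X : ℝ)} := h1.to_subtype
    refine Finite.of_injective
      (fun a : {a : 𝓞 K // house (a : K) ≤ X} =>
        (⟨((a : 𝓞 K) : K), RingOfIntegers.isIntegral_coe _,
          fun φ => le_trans (norm_embedding_le_house _ φ) a.2⟩ :
          {x : K | IsIntegral ℤ x ∧ ∀ φ : K →+* ℂ, ‖φ x‖ ≤ (X : ℝ)})) ?_
    intro a b hab
    have h3 := Subtype.ext_iff.mp hab
    have h2 : ((a : 𝓞 K) : K) = ((b : 𝓞 K) : K) := h3
    exact Subtype.ext (RingOfIntegers.coe_injective h2)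
  let F : (Free.ChooseBasisIndex ℤ (𝓞 K) → Fin (X / M + 1)) →
      {a : 𝓞 K // house (a : K) ≤ X} := fun f =>
    ⟨∑ i, ((f i : ℕ) : ℤ) • RingOfIntegers.basis K i, by
      have h1 : ((∑ i, ((f i : ℕ) : ℤ) • RingOfIntegers.basis K i : 𝓞 K) : K) =
          ∑ i, ((f i : ℕ) : K) * ((RingOfIntegers.basis K i : 𝓞 K) : K) := by
        change algebraMap (𝓞 K) K _ = _
        rw [map_sum]
        refine Finset.sum_congr rfl (fun i _ => ?_)
        rw [zsmul_eq_mul, map_mul, map_intCast, Int.cast_natCast]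
      rw [h1]
      refine le_trans (house_sum_le_sum_house _ _) ?_
      have h2 : ∀ i ∈ Finset.univ, house (((f i : ℕ) : K) * ((RingOfIntegers.basis K i : 𝓞 K) : K))
          ≤ ((X / M : ℕ) : ℝ) * house ((RingOfIntegers.basis K i : 𝓞 K) : K) := by
        intro i _
        rw [house_nat_mul]
        refine mul_le_mul_of_nonneg_right ?_ (house_nonneg _)
        have := (f i).2
        exact_mod_cast Nat.lt_succ_iff.mp this
      refine le_trans (Finset.sum_le_sum h2) ?_
      rw [← Finset.mul_sum]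
      have h3 : ((X / M : ℕ) : ℝ) * ∑ i, house ((RingOfIntegers.basis K i : 𝓞 K) : K) ≤
          ((X / M : ℕ) : ℝ) * M :=
        mul_le_mul_of_nonneg_left (by linarith) (Nat.cast_nonneg _)
      refine le_trans h3 ?_
      exact_mod_cast Nat.div_mul_le_self X M⟩
  have hFinj : Function.Injective F := by
    intro f g hfg
    have h1 : ∑ i, ((f i : ℕ) : ℤ) • RingOfIntegers.basis K i =
        ∑ i, ((g i : ℕ) : ℤ) • RingOfIntegers.basis K i := congrArg Subtype.val hfg
    have h2 : ∀ (h : Free.ChooseBasisIndex ℤ (𝓞 K) → Fin (X / M + 1)) (j),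
        (RingOfIntegers.basis K).repr (∑ i, ((h i : ℕ) : ℤ) • RingOfIntegers.basis K i) j =
          ((h j : ℕ) : ℤ) := by
      intro h j
      rw [Basis.repr_sum_self]
    funext j
    have h3 := h2 f j
    rw [h1, h2 g j] at h3
    exact Fin.ext (by exact_mod_cast h3.symm)
  have hcount : Nat.card (Free.ChooseBasisIndex ℤ (𝓞 K) → Fin (X / M + 1)) ≤
      Nat.card {a : 𝓞 K // house (a : K) ≤ X} := Nat.card_le_card_of_injective F hFinj
  rw [Nat.card_eq_fintype_card, Fintype.card_fun, Fintype.card_fin, hcard] at hcount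
  have h5 : (X : ℝ) / M ≤ ((X / M + 1 : ℕ) : ℝ) := by
    rw [div_le_iff₀ hMpos]
    have h6 : X < (X / M + 1) * M := by
      have := Nat.lt_div_mul_add (a := X) hMn
      calc X < X / M * M + M := this
        _ = (X / M + 1) * M := by ring
    exact_mod_cast h6.le
  calc (1 / (M : ℝ)) ^ finrank ℚ K * (X : ℝ) ^ finrank ℚ K
      = ((X : ℝ) / M) ^ finrank ℚ K := by
        rw [← mul_pow]; congr 1; ring
    _ ≤ ((X / M + 1 : ℕ) : ℝ) ^ finrank ℚ K := by
        exact pow_le_pow_left₀ (by positivity) h5 _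
    _ ≤ (Nat.card {a : 𝓞 K // house (a : K) ≤ X} : ℝ) := by exact_mod_cast hcount

end Pool.Agent.HIK.H27
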